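import Mathlib
import Pool.Agent.H978R3.Montel

/-!
# The convolution classes `T(α,β)` with complex parameters: coefficient bounds and closedness
-/

set_option autoImplicit false
open Metric Filter Topology Finset

namespace Pool.Agent.Y254.TN
open Pool.Agent.H978R3

/-- uniform coefficient bounds for all complex parameters outside the exceptional set -/
theorem coefficient_bound' {α β : ℂ} (hα : α ≠ 0) (hβ : β ≠ 0) (hne : ¬ ∃ m k : ℕ, α = m ∧ β = -(k : ℂ))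
    {r : ℝ} (hr0 : 0 < r) (hr1 : r < 1) :
    ∃ C : ℝ, ∀ a : ℕ → ℂ, GC a → a 0 = 1 →
      (∀ x : ℂ, ‖x‖ ≤ 1 → ∀ z : ℂ, ‖z‖ < 1 → F α β a x z ≠ 0) →
      ∀ n, ‖a n‖ * r ^ n ≤ C := by
  by_cases hb : ∀ n : ℕ, (β - α) + n ≠ 0
  · exact nonexc_bound hα hβ hb hr0 hr1
  · push Not at hb
    obtain ⟨N, hN⟩ := hb
    have hN' : β - α = -(N : ℂ) := by linear_combination hN
    refine exc_bound hN' (bc_ne_zero _ ?_) hr0 hr1
    intro i hi h
    refine hne ⟨i, N - i, h, ?_⟩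
    rw [Nat.cast_sub (Nat.lt_succ_iff.1 hi)]
    linear_combination hN + h

/-- bounded coefficients give local bounds -/
theorem S_bound {a : ℕ → ℂ} {r ρ C : ℝ} (hr : 0 ≤ r) (hρ : r < ρ) (hC : ∀ n, ‖a n‖ * ρ ^ n ≤ C) {z : ℂ}
    (hz : ‖z‖ ≤ r) : ‖S a z‖ ≤ C * (1 - r / ρ)⁻¹ := by
  have hρ0 : 0 < ρ := hr.trans_lt hρ
  have hq0 : 0 ≤ r / ρ := by positivity
  have hq : r / ρ < 1 := by rw [div_lt_one hρ0]; exact hρ
  have hg : HasSum (fun n : ℕ => C * (r / ρ) ^ n) (C * (1 - r / ρ)⁻¹) :=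
    (hasSum_geometric_of_lt_one hq0 hq).mul_left C
  refine tsum_of_norm_bounded hg fun n => ?_
  rw [norm_mul, norm_pow]
  have h1 : ‖a n‖ * r ^ n = (‖a n‖ * ρ ^ n) * (r / ρ) ^ n := by rw [div_pow]; field_simp
  calc ‖a n‖ * ‖z‖ ^ n ≤ ‖a n‖ * r ^ n := by gcongr
    _ = (‖a n‖ * ρ ^ n) * (r / ρ) ^ n := h1
    _ ≤ C * (r / ρ) ^ n := by have := hC n; gcongr

/-- Cauchy estimate for power series -/
theorem coeff_le {a : ℕ → ℂ} (ha : GC a) {ρ M : ℝ} (hρ0 : 0 < ρ) (hρ1 : ρ < 1)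
    (h : ∀ z : ℂ, ‖z‖ = ρ → ‖S a z‖ ≤ M) (n : ℕ) : ‖a n‖ * ρ ^ n ≤ M := by
  have hd : DiffContOnCl ℂ (S a) (ball 0 ρ) := by
    apply DifferentiableOn.diffContOnCl
    rw [closure_ball _ hρ0.ne']
    exact ha.differentiableOn.mono (closedBall_subset_ball hρ1)
  have h1 := Complex.norm_iteratedDeriv_le_of_forall_mem_sphere_norm_le n hρ0 hd
    (fun z hz => h z (by simpa using hz))
  have h2 := coeff_eq_of_eqOn ha (f := S a) (fun z _ => rfl) n
  rw [← h2, norm_div, Complex.norm_natCast]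
  have h3 : (0:ℝ) < n.factorial := by exact_mod_cast n.factorial_pos
  rw [div_mul_eq_mul_div, div_le_iff₀ h3]
  calc ‖_root_.iteratedDeriv n (S a) 0‖ * ρ ^ n ≤ (n.factorial * M / ρ ^ n) * ρ ^ n := by gcongr
    _ = M * n.factorial := by field_simp

/-- if the power series are close on a disc, then so are the convolutions with the kernel -/
theorem F_sub_le {a b : ℕ → ℂ} (ha : GC a) (hb : GC b) (α β : ℂ) {x : ℂ} (hx : ‖x‖ ≤ 1) {r ρ : ℝ}
    (hr : 0 ≤ r) (hrρ : r < ρ) (hρ1 : ρ < 1) :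
    ∃ M : ℝ, 0 ≤ M ∧ ∀ a : ℕ → ℂ, GC a → ∀ δ : ℝ, (∀ z : ℂ, ‖z‖ = ρ → ‖S a z - S b z‖ ≤ δ) →
      ∀ z : ℂ, ‖z‖ ≤ r → ‖F α β a x z - F α β b x z‖ ≤ δ * M := by
  have hρ0 : 0 < ρ := hr.trans_lt hrρ
  have hq0 : 0 ≤ r / ρ := by positivity
  have hq : r / ρ < 1 := by rw [div_lt_one hρ0]; exact hrρ
  have hsum := GC_cf α β hx (r / ρ) hq0 hq
  refine ⟨∑' n, ‖cf α β x n‖ * (r / ρ) ^ n, tsum_nonneg fun n => by positivity, ?_⟩
  intro a ha δ hδ z hz
  have hz1 : ‖z‖ < 1 := hz.trans_lt (hrρ.trans hρ1)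
  have hab : GC (fun n => a n - b n) := by
    intro t h0 h1
    refine Summable.of_nonneg_of_le (fun n => by positivity) (fun n => ?_) ((ha t h0 h1).add (hb t h0 h1))
    rw [← add_mul]
    have := norm_sub_le (a n) (b n)
    gcongr
  have hSab : ∀ w : ℂ, ‖w‖ < 1 → S (fun n => a n - b n) w = S a w - S b w := by
    intro w hw
    have h1 := (ha.hasSum hw).sub (hb.hasSum hw)
    rw [← h1.tsum_eq]
    refine tsum_congr fun n => ?_
    ring
  have hc : ∀ n, ‖a n - b n‖ * ρ ^ n ≤ δ := fun n => coeff_le hab hρ0 hρ1 (fun w hw => by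
    rw [hSab w (hw ▸ hρ1)]; exact hδ w hw) n
  have hF : F α β a x z - F α β b x z = ∑' n, (a n - b n) * cf α β x n * z ^ n := by
    have h1 := ((ha.mul (GC_cf α β hx)).hasSum hz1).sub ((hb.mul (GC_cf α β hx)).hasSum hz1)
    have h2 : F α β a x z - F α β b x z = S (fun n => a n * cf α β x n) z - S (fun n => b n * cf α β x n) z := rfl
    rw [h2, ← h1.tsum_eq]
    refine tsum_congr fun n => ?_
    ring
  rw [hF]
  have hg : HasSum (fun n : ℕ => δ * (‖cf α β x n‖ * (r / ρ) ^ n)) (δ * ∑' n, ‖cf α β x n‖ * (r / ρ) ^ n) :=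
    hsum.hasSum.mul_left δ
  refine tsum_of_norm_bounded hg fun n => ?_
  rw [norm_mul, norm_mul, norm_pow]
  have h1 : ‖a n - b n‖ * r ^ n = (‖a n - b n‖ * ρ ^ n) * (r / ρ) ^ n := by rw [div_pow]; field_simp
  calc ‖a n - b n‖ * ‖cf α β x n‖ * ‖z‖ ^ n ≤ ‖a n - b n‖ * ‖cf α β x n‖ * r ^ n := by gcongr
    _ = ‖cf α β x n‖ * (‖a n - b n‖ * r ^ n) := by ring
    _ = ‖cf α β x n‖ * ((‖a n - b n‖ * ρ ^ n) * (r / ρ) ^ n) := by rw [h1]
    _ ≤ ‖cf α β x n‖ * (δ * (r / ρ) ^ n) := by have := hc n; gcongr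
    _ = δ * (‖cf α β x n‖ * (r / ρ) ^ n) := by ring

/-- **Closedness.** A locally uniform limit of power series whose convolutions with the kernel have no
zeros has the same property. -/
theorem F_ne_zero_of_tendsto {a : ℕ → ℕ → ℂ} {b : ℕ → ℂ} (ha : ∀ k, GC (a k)) (hb : GC b) (hb0 : b 0 = 1)
    (hlim : TendstoLocallyUniformlyOn (fun k => S (a k)) (S b) atTop (ball 0 1)) {α β x : ℂ} (hx : ‖x‖ ≤ 1)
    (hne : ∀ k, ∀ z : ℂ, ‖z‖ < 1 → F α β (a k) x z ≠ 0) : ∀ z : ℂ, ‖z‖ < 1 → F α β b x z ≠ 0 := by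
  intro z₀ hz₀ hzero
  have hbc : GC (fun n => b n * cf α β x n) := hb.mul (GC_cf α β hx)
  have hd : DifferentiableOn ℂ (F α β b x) (ball 0 1) := hbc.differentiableOn
  have han : AnalyticOnNhd ℂ (F α β b x) (ball 0 1) := hd.analyticOnNhd isOpen_ball
  have hev : ∀ᶠ z in 𝓝[≠] z₀, F α β b x z ≠ 0 := by
    by_contra hcon
    have hfr : ∃ᶠ z in 𝓝[≠] z₀, F α β b x z = 0 :=
      (Filter.not_eventually.1 hcon).mono fun z hz => not_not.1 hz
    have h1 := han.eqOn_zero_of_preconnected_of_frequently_eq_zero (convex_ball (0:ℂ) 1).isPreconnected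
      (by simpa using hz₀) hfr
    have h2 := h1 (show (0:ℂ) ∈ ball (0:ℂ) 1 by simp)
    rw [F_zero, hb0] at h2
    exact one_ne_zero h2
  rw [eventually_nhdsWithin_iff, Metric.eventually_nhds_iff] at hev
  obtain ⟨ε, hε, hev⟩ := hev
  set η := min (ε / 2) ((1 - ‖z₀‖) / 2) with hη
  have hη0 : 0 < η := lt_min (by positivity) (by linarith)
  have hηε : η < ε := (min_le_left _ _).trans_lt (by linarith)
  have hη1 : ‖z₀‖ + η < 1 := by
    have := min_le_right (ε / 2) ((1 - ‖z₀‖) / 2)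
    rw [← hη] at this
    linarith
  set r := ‖z₀‖ + η with hr
  have hr0 : 0 ≤ r := by positivity
  have hball : ∀ t ∈ closedBall z₀ η, ‖t‖ ≤ r := by
    intro t ht
    have h1 : ‖t - z₀‖ ≤ η := by simpa [dist_eq_norm] using ht
    calc ‖t‖ = ‖z₀ + (t - z₀)‖ := by congr 1; ring
      _ ≤ ‖z₀‖ + ‖t - z₀‖ := norm_add_le _ _
      _ ≤ r := by rw [hr]; linarith
  obtain ⟨ρ, hrρ, hρ1⟩ := exists_between hη1
  have hsph : (sphere z₀ η).Nonempty := ⟨z₀ + η, by simp [abs_of_pos hη0]⟩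
  have hcont : ContinuousOn (fun t => ‖F α β b x t‖) (sphere z₀ η) :=
    (hd.continuousOn.mono (fun t ht => by
      have := hball t (sphere_subset_closedBall ht)
      simpa using this.trans_lt (hrρ.trans hρ1))).norm
  obtain ⟨t₁, ht₁, hmin⟩ := (isCompact_sphere z₀ η).exists_isMinOn hsph hcont
  set s := ‖F α β b x t₁‖ with hs
  have hs0 : 0 < s := by
    rw [hs, norm_pos_iff]
    refine hev (y := t₁) ?_ ?_
    · rw [mem_sphere.1 ht₁]; exact hηε
    · intro h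
      have h2 := mem_sphere.1 ht₁
      rw [Set.mem_singleton_iff.1 h, dist_self] at h2
      exact hη0.ne h2
  obtain ⟨M, hM, hFM⟩ := F_sub_le (ha 0) hb α β hx hr0 hrρ hρ1
  have hδ0 : 0 < s / (4 * (M + 1)) := by positivity
  have hunif := (tendstoLocallyUniformlyOn_iff_forall_isCompact isOpen_ball).1 hlim (sphere (0:ℂ) ρ)
    (fun t ht => by
      have : ‖t‖ = ρ := by simpa using ht
      simpa [this] using hρ1) (isCompact_sphere _ _)
  rw [Metric.tendstoUniformlyOn_iff] at hunif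
  obtain ⟨k, hk⟩ := (hunif (s / (4 * (M + 1))) hδ0).exists
  have hclose : ∀ z : ℂ, ‖z‖ ≤ r → ‖F α β (a k) x z - F α β b x z‖ ≤ s / 4 := by
    intro z hz
    have h1 := hFM (a k) (ha k) (s / (4 * (M + 1))) (fun w hw => by
      have h2 := hk w (by simpa using hw)
      rw [dist_comm, dist_eq_norm] at h2
      exact h2.le) z hz
    refine h1.trans ?_
    rw [div_mul_eq_mul_div, div_le_div_iff₀ (by positivity) (by norm_num)]
    nlinarith
  obtain ⟨t, ht, htz⟩ := exists_zero_of_lt (E := F α β (a k) x) (t₀ := z₀) (η := η) (s := s / 2) hη0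
    ((((ha k).mul (GC_cf α β hx)).differentiableOn).mono (fun t ht => by
      simpa using (hball t ht).trans_lt (hrρ.trans hρ1))) (by positivity)
    (fun t ht => by
      have h1 := hclose t (hball t (sphere_subset_closedBall ht))
      have h2 : s ≤ ‖F α β b x t‖ := hmin ht
      have h3 := norm_sub_norm_le (F α β b x t) (F α β (a k) x t)
      rw [norm_sub_rev] at h1
      linarith)
    (by
      have h1 := hclose z₀ (by rw [hr]; linarith)
      rw [hzero, sub_zero] at h1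
      linarith)
  exact hne k t ((hball t ht).trans_lt (hrρ.trans hρ1)) htz

end Pool.Agent.Y254.TN
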